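import Pool.Agent.N613.RP.Main

/-!
# The reflection principle for asymptotic inequalities
-/

set_option autoImplicit false
set_option linter.unusedSectionVars false

namespace Pool.Agent.N613.RP

open Finset Polynomial Pool.Agent.R580.CD

variable {V : Type} [Fintype V] [LinearOrder V] {F : Type} [Field F] {d : ℕ} {a : ℕ → ℚ} {m : ℕ}
  {G : SimpleGraph V} {I : Finset V} {P : ∀ W : Type, SimpleGraph W → Prop}

theorem gam0 {p : ℤ[X]} {γ : ℕ → ℤ} (h : IsGam d p γ) (hp : p.eval 0 = 1) : γ 0 = 1 := by
  have h1 := coeff_Phi d γ (i := 0) (Nat.zero_le _)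
  rw [← h.1, Finset.range_zero, Finset.sum_empty, add_zero, coeff_zero_eq_eval_zero, hp] at h1
  exact h1.symm

theorem fp_coeff_one : (fp G Set.univ).coeff 1 = Fintype.card V := by
  classical
  unfold fp
  rw [finsetSum_coeff]
  have h1 : ∀ T : Finset V, (if G.IsClique (T : Set V) ∧ (T : Set V) ⊆ Set.univ then
      (X : ℤ[X]) ^ T.card else 0).coeff 1 = if T.card = 1 then 1 else 0 := by
    intro T
    by_cases h : T.card = 1
    · obtain ⟨x, rfl⟩ := Finset.card_eq_one.1 h
      simp
    · rw [if_neg h]
      split_ifs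
      · rw [coeff_X_pow, if_neg fun h' => h h'.symm]
      · simp
  rw [Finset.sum_congr rfl fun T _ => h1 T, ← Finset.sum_filter, Finset.sum_const, nsmul_eq_mul,
    mul_one]
  have h2 : (Finset.univ.filter fun T : Finset V => T.card = 1) =
      (Finset.univ : Finset V).powersetCard 1 := by
    ext T
    simp [Finset.mem_powersetCard]
  rw [h2, Finset.card_powersetCard, Finset.card_univ, Nat.choose_one_right]

theorem card_eq (hS : Sph F d G) : (Fintype.card V : ℤ) = gv d (fp G Set.univ) 1 + 2 * d := by
  have h1 := gam_spec hS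
  rw [gam_eq_gv] at h1
  have h0 := gam0 h1 (fp_eval_zero G Set.univ)
  rw [← fp_coeff_one (G := G)]
  set γ := gv d (fp G Set.univ) with hγ
  rw [h1.1]
  rcases Nat.lt_or_ge d 2 with hd | hd
  · have h2 : γ 1 = 0 := h1.2 1 (by omega)
    rw [h2]
    have h3 : d / 2 + 1 = 1 := by omega
    unfold Phi
    rw [h3, Finset.sum_range_one, h0]
    obtain rfl | rfl : d = 0 ∨ d = 1 := by omega
    · simp [coeff_one]
    · simp [coeff_one, coeff_ofNat_mul]
  · have h2 := coeff_Phi d γ (i := 1) (by omega)
    rw [h2, Finset.sum_range_one, h0]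
    have h3 : cc d 0 1 = 2 * d := by
      unfold cc
      rw [pow_zero, one_mul, Nat.mul_zero, Nat.sub_zero]
      have h4 : ∀ n : ℕ, ((1 + 2 * X : ℤ[X]) ^ n).coeff 0 = 1 ∧
          ((1 + 2 * X : ℤ[X]) ^ n).coeff 1 = 2 * n := by
        intro n
        induction n with
        | zero => simp [coeff_one]
        | succ n ih =>
          have h5 : (1 + 2 * X : ℤ[X]) ^ (n + 1) = (1 + 2 * X) ^ n + C 2 * ((1 + 2 * X) ^ n * X) := by
            rw [pow_succ, show (C 2 : ℤ[X]) = 2 from rfl]
            ring
          rw [h5]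
          refine ⟨?_, ?_⟩
          · rw [coeff_add, coeff_C_mul, coeff_mul_X_zero, ih.1]
            ring
          · rw [coeff_add, coeff_C_mul, coeff_mul_X, ih.1, ih.2]
            push_cast
            ring
      exact (h4 d).2
    rw [h3]
    ring

/-- the functional plus `ε γ₁ + c γ₀` -/
theorem val_add (ε c : ℚ) (e : ℕ) (p : ℤ[X]) :
    val (fun i => (if i < m then a i else 0) + (if i = 1 then ε else 0) + (if i = 0 then c else 0))
      (m + 2) e p = val a m e p + ε * gv e p 1 + c * gv e p 0 := by
  unfold val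
  have h1 : ∀ i ∈ Finset.range (m + 2),
      ((if i < m then a i else 0) + (if i = 1 then ε else 0) + (if i = 0 then c else 0)) *
        (gv e p i : ℚ) = (if i < m then a i * (gv e p i : ℚ) else 0) +
          (if i = 1 then ε * (gv e p i : ℚ) else 0) + (if i = 0 then c * (gv e p i : ℚ) else 0) := by
    intro i _
    split_ifs <;> ring
  rw [Finset.sum_congr rfl h1, Finset.sum_add_distrib, Finset.sum_add_distrib]
  congr 1
  · congr 1
    · rw [← Finset.sum_filter]
      congr 1
      ext i
      simp only [mem_filter, mem_range]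
      omega
    · rw [Finset.sum_ite_eq' (Finset.range (m + 2)) 1 (fun i => ε * (gv e p i : ℚ)),
        if_pos (by rw [mem_range]; omega)]
  · rw [Finset.sum_ite_eq' (Finset.range (m + 2)) 0 (fun i => c * (gv e p i : ℚ)),
      if_pos (by rw [mem_range]; omega)]

theorem Amen.split {V : Type} [DecidableEq V] {K : SimpleGraph V} {I : Finset V} (hI : Amen K I)
    {v w : V} (hv : v ∈ I) (hw : w ∈ I) (hwv : w ≠ v) (hvw : ¬ K.Adj v w) :
    ∃ J, v ∉ J ∧ w ∉ J ∧ I = insert v (insert w J) ∧ (∀ i ∈ J, K.Adj v i) ∧ ∀ i ∈ J, K.Adj w i := by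
  have hw' : w ∈ I.erase v := mem_erase.2 ⟨hwv, hw⟩
  set J := (I.erase v).erase w with hJ
  have hJI : J ⊆ I := (erase_subset _ _).trans (erase_subset _ _)
  have hvJ : v ∉ J := fun h => (mem_erase.1 (mem_of_mem_erase h)).1 rfl
  have hwJ : w ∉ J := notMem_erase _ _
  refine ⟨J, hvJ, hwJ, ?_, ?_, ?_⟩
  · rw [hJ, insert_erase hw', insert_erase hv]
  · intro i hi
    by_contra hcon
    have h2 : i ≠ v := by
      rintro rfl
      exact hvJ hi
    have h3 := hI v hv i (hJI hi) w hw h2 hwv hcon hvw
    rw [h3] at hi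
    exact hwJ hi
  · intro i hi
    by_contra hcon
    have h2 : i ≠ w := by
      rintro rfl
      exact hwJ hi
    have h3 := hI w hw i (hJI hi) v hv h2 hwv.symm hcon (fun h => hvw h.symm)
    rw [h3] at hi
    exact hvJ hi

/-- **The reflection principle for asymptotic inequalities.** -/
theorem main_asy (hP : Closed F d P)
    (hα : ∀ ε : ℚ, 0 < ε → ∃ C : ℚ, ∀ (W : Type) [Fintype W] [LinearOrder W] (H : SimpleGraph W),
      Sph F d H → P W H → -(ε * Fintype.card W + C) ≤ val a m d (fp H Set.univ))
    (hS : Sph F d G) (hG : P V G) (hI : Amen G I) {v w : V} (hv : v ∈ I) (hw : w ∈ I)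
    (hwv : w ≠ v) (hvw : ¬ G.Adj v w) :
    0 ≤ EE G I (fun R => val a m (d - R.card) (fp G (lnk G R))) := by
  obtain ⟨J, hvJ, hwJ, hIJ, hav, haw⟩ := hI.split hv hw hwv hvw
  have hχ : EE G I (fun _ => (1 : ℚ)) = 0 := by
    rw [hIJ, EE_pair hvJ hwJ hwv.symm hvw hav haw]
    ring
  set x := EE G I (fun R => val a m (d - R.card) (fp G (lnk G R))) with hx
  set y := EE G I (fun R => (gv (d - R.card) (fp G (lnk G R)) 1 : ℚ)) with hy
  have h1 : ∀ ε : ℚ, 0 < ε → 0 ≤ x + ε * y := by
    intro ε hε
    obtain ⟨C, hC⟩ := hα ε hε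
    have h2 := main (a := fun i => (if i < m then a i else 0) + (if i = 1 then ε else 0) +
      (if i = 0 then (C + ε * (2 * d)) else 0)) (m := m + 2) hP (fun W _ _ H hH hPH => by
        rw [val_add]
        have h3 := hC W H hH hPH
        have h4 := card_eq hH
        have h5 : gv d (fp H Set.univ) 0 = 1 := by
          have h6 := gam_spec hH
          rw [gam_eq_gv] at h6
          exact gam0 h6 (fp_eval_zero H Set.univ)
        have h7 : (gv d (fp H Set.univ) 1 : ℚ) = Fintype.card W - 2 * d := by
          have h8 : (gv d (fp H Set.univ) 1 : ℤ) = Fintype.card W - 2 * d := by linarith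
          rw [h8]
          push_cast
          ring
        rw [h5, h7]
        push_cast
        linarith) hS hG I hI
    have h3 : EE G I (fun R => val (fun i => (if i < m then a i else 0) +
        (if i = 1 then ε else 0) + (if i = 0 then (C + ε * (2 * d)) else 0)) (m + 2)
          (d - R.card) (fp G (lnk G R))) = x + ε * y := by
      rw [EE_congr (g' := fun R => 1 * (1 * val a m (d - R.card) (fp G (lnk G R)) +
        ε * (gv (d - R.card) (fp G (lnk G R)) 1 : ℚ)) + (C + ε * (2 * d)) * 1) (fun R _ hR => by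
          rw [val_add, gam0 (link_gam hS hR) (fp_eval_zero G _)]
          push_cast
          ring), EE_lin, EE_lin, hχ]
      ring
    rw [h3] at h2
    exact h2
  by_contra hcon
  rw [not_le] at hcon
  have h2 := h1 (-x / (|y| + 1)) (div_pos (by linarith) (by positivity))
  have h3 : -x / (|y| + 1) * y ≤ -x * (|y| / (|y| + 1)) := by
    have h4 : -x / (|y| + 1) * y = -x * (y / (|y| + 1)) := by ring
    rw [h4]
    apply mul_le_mul_of_nonneg_left _ (by linarith)
    exact div_le_div_of_nonneg_right (le_abs_self y) (by positivity)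
  have h5 : |y| / (|y| + 1) < 1 := by
    rw [div_lt_one (by positivity)]
    linarith
  nlinarith

end Pool.Agent.N613.RP
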