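import Pool.Agent.R580.CD.GAmp

/-!
# Links of faces in the double of a flag homology sphere
-/

set_option autoImplicit false
set_option linter.unusedSectionVars false

namespace Pool.Agent.N613.RP

open Finset Polynomial Pool.Agent.R580.CD

open Classical in
/-- the gamma-vector of the polynomial `p`, for the parameter `d` (zero if there is none) -/
noncomputable def gv (d : ℕ) (p : ℤ[X]) : ℕ → ℤ := if h : ∃ γ, IsGam d p γ then h.choose else 0

theorem gv_eq {d : ℕ} {p : ℤ[X]} {γ : ℕ → ℤ} (h : IsGam d p γ) : gv d p = γ := by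
  have h1 : ∃ γ, IsGam d p γ := ⟨γ, h⟩
  unfold gv
  rw [dif_pos h1]
  exact gam_unique h1.choose_spec h

section

variable {V : Type} [Fintype V] [LinearOrder V] {F : Type} [Field F] {G : SimpleGraph V} {d : ℕ}

theorem gam_eq_gv : gam d G = gv d (fp G Set.univ) := rfl

theorem lnk_inter (T R : Finset V) : lnk G T ∩ lnk G R = lnk G (T ∪ R) := by
  ext x
  simp only [lnk, Set.mem_inter_iff, Set.mem_ofPred_eq, Finset.mem_union]
  constructor
  · rintro ⟨h1, h2⟩ u (hu | hu)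
    · exact h1 u hu
    · exact h2 u hu
  · intro h
    exact ⟨fun u hu => h u (Or.inl hu), fun u hu => h u (Or.inr hu)⟩

/-- the links of the faces are spheres -/
theorem link_sphOn (hS : Sph F d G) {T : Finset V} (hT : G.IsClique (T : Set V)) :
    SphOn F (d - T.card) G (lnk G T) := by
  intro R hR hRT i
  obtain ⟨h2, h3⟩ := clique_union hT hR hRT
  have h4 := hS.card h2
  rw [lnk_inter, hS _ h2 i, h3]
  rw [h3] at h4
  have : (i + (T.card + R.card) = d) ↔ (i + R.card = d - T.card) := by omega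
  simp only [this]

/-- the gamma-vector of the link of a face -/
theorem link_gam (hS : Sph F d G) {T : Finset V} (hT : G.IsClique (T : Set V)) :
    IsGam (d - T.card) (fp G (lnk G T)) (gv (d - T.card) (fp G (lnk G T))) := by
  classical
  have h1 := (link_sphOn hS hT).induce
  have h2 := gam_spec h1
  rw [fp_univ_induce] at h2
  rw [gv_eq h2]
  exact h2

theorem isGam_lin {e : ℕ} {p q : ℤ[X]} {γ δ : ℕ → ℤ} (h1 : IsGam (e + 1) p γ) (h2 : IsGam e q δ) :
    IsGam (e + 1) (2 * p - (1 + 2 * X) * q) (fun i => 2 * γ i - δ i) := by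
  refine ⟨?_, fun i hi => ?_⟩
  · have h3 : (fun i => 2 * γ i - δ i) = fun i => 2 * γ i + (-1) * δ i := by
      funext i
      ring
    rw [h3, Phi_add, Phi_smul, Phi_smul, Phi_one e δ h2.2, ← h2.1, ← h1.1]
    rw [show (C 2 : ℤ[X]) = 2 by rfl, C_neg, C_1]
    ring
  · beta_reduce
    rw [h1.2 i hi, h2.2 i (by omega)]
    ring

theorem lnk_empty : lnk G ∅ = Set.univ := by
  ext x
  simp [lnk]

/-- the vertices of the double -/
abbrev DV (G : SimpleGraph V) (v : V) : Type := ↥(hA v ∪ hB G v)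

/-- the double -/
noncomputable abbrev DG (G : SimpleGraph V) (v : V) : SimpleGraph (DV G v) :=
  (dbl G v).induce (hA v ∪ hB G v)

/-- the face polynomial in the double, in terms of the ambient graph -/
theorem fp_DG (v : V) [Fintype (DV G v)] (A : Set (DV G v)) :
    fp (DG G v) A = fp (dbl G v) (Subtype.val '' A) :=
  (fp_map (Function.Embedding.subtype _) (fun x _ y _ => Iff.rfl)).symm

theorem l0 {v : V} {R : Finset V} (hR : v ∉ R) : hA v ∩ lnk (dbl G v) (R.map ic0) =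
    ic0 '' (lnk G R \ {v}) := by
  have h0 : (R : Set V) ⊆ ({v}ᶜ : Set V) := by
    rintro x hx rfl
    exact hR hx
  have := lnk_map (G := G) (H := dbl G v) ic0 (dbl_adj0 G v) h0
  rw [show lnk G R \ {v} = ({v}ᶜ : Set V) ∩ lnk G R by ext x; simp [and_comm]]
  exact this

theorem l1 {v : V} {R : Finset V} (hR : v ∉ R) : hB G v ∩ lnk (dbl G v) (R.map (ic1 G v)) =
    ic1 G v '' (lnk G R \ {v}) := by
  have h0 : (R : Set V) ⊆ ({v}ᶜ : Set V) := by
    rintro x hx rfl
    exact hR hx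
  have := lnk_map (G := G) (H := dbl G v) (ic1 G v) (dbl_adj1 G v) h0
  rw [show lnk G R \ {v} = ({v}ᶜ : Set V) ∩ lnk G R by ext x; simp [and_comm]]
  exact this

theorem fp0 (v : V) (A : Set V) : fp (dbl G v) (ic0 '' (A \ {v})) = fp G (A \ {v}) :=
  fp_map ic0 fun x hx y hy => dbl_adj0 G v x hx.2 y hy.2

theorem fp1 (v : V) (A : Set V) : fp (dbl G v) (ic1 G v '' (A \ {v})) = fp G (A \ {v}) :=
  fp_map (ic1 G v) fun x hx y hy => dbl_adj1 G v x hx.2 y hy.2

/-- the link of a face in the mirror -/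
theorem near {v : V} {R : Finset V} (hR : ∀ x ∈ R, G.Adj v x) :
    fp (dbl G v) ((hA v ∪ hB G v) ∩ lnk (dbl G v) (R.map ic0)) =
      2 * fp G (lnk G R) - (1 + 2 * X) * fp G (lnk G (insert v R)) := by
  have hvR : v ∉ R := fun h => G.loopless.irrefl _ (hR v h)
  have hv : v ∈ lnk G R := hR
  have hmap : R.map ic0 = R.map (ic1 G v) := by
    ext p
    rw [mem_map, mem_map]
    constructor
    · rintro ⟨x, hx, rfl⟩
      exact ⟨x, hx, ic_eq G v (hR x hx)⟩
    · rintro ⟨x, hx, rfl⟩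
      exact ⟨x, hx, (ic_eq G v (hR x hx)).symm⟩
  set K := lnk (dbl G v) (R.map ic0) with hK
  have e1 : (hA v ∪ hB G v) ∩ K = (hA v ∩ K) ∪ (hB G v ∩ K) := Set.union_inter_distrib_right _ _ _
  have e2 : hA v ∩ K = ic0 '' (lnk G R \ {v}) := l0 hvR
  have e3 : hB G v ∩ K = ic1 G v '' (lnk G R \ {v}) := by
    rw [hK, hmap]
    exact l1 hvR
  have e4 : (hA v ∩ K) ∩ (hB G v ∩ K) = ic0 '' (lnk G (insert v R) \ {v}) := by
    rw [lnk_insert]
    have : (hA v ∩ K) ∩ (hB G v ∩ K) = (hA v ∩ hB G v) ∩ (hA v ∩ K) := by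
      ext p
      simp only [Set.mem_inter_iff]
      tauto
    rw [this, hAB, e2]
    ext p
    constructor
    · rintro ⟨⟨x, hx, rfl⟩, ⟨y, hy, hxy⟩⟩
      have := ic0.injective hxy
      subst this
      exact ⟨y, ⟨⟨hy.1, hx⟩, hy.2⟩, rfl⟩
    · rintro ⟨x, ⟨⟨hx1, hx2⟩, hx3⟩, rfl⟩
      exact ⟨⟨x, hx2, rfl⟩, ⟨x, ⟨hx1, hx3⟩, rfl⟩⟩
  have hu := fp_union (G := dbl G v) (A := hA v ∩ K) (B := hB G v ∩ K) (by
    intro a ha haB b hb hbA
    exact dbl_sep G v a ha.1 (fun h => haB ⟨h, ha.2⟩) b hb.1 (fun h => hbA ⟨h, hb.2⟩))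
  rw [← e1, e4, e2, e3, fp0, fp0, fp1] at hu
  have h5 := fp_insert (G := G) (A := lnk G R \ {v}) (v := v) (by simp)
  have h6 : insert v (lnk G R \ {v}) = lnk G R := by
    rw [Set.insert_sdiff_singleton, Set.insert_eq_of_mem hv]
  have h7 : (lnk G R \ {v}) ∩ G.neighborSet v = lnk G (insert v R) := by
    rw [lnk_insert]
    ext x
    constructor
    · rintro ⟨h8, h9⟩
      exact ⟨h8.1, h9⟩
    · rintro ⟨h8, h9⟩
      refine ⟨⟨h8, ?_⟩, h9⟩
      rintro rfl
      exact G.loopless.irrefl _ h9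
  have h8 : lnk G (insert v R) \ {v} = lnk G (insert v R) := by
    ext x
    refine ⟨fun h => h.1, fun h => ⟨h, ?_⟩⟩
    rintro rfl
    exact notMem_of_lnk h (mem_insert_self _ _)
  rw [h6, h7] at h5
  rw [h8] at hu
  linear_combination hu - 2 * h5

/-- the link of a face outside of the mirror, first copy -/
theorem far0 {v : V} {R : Finset V} (hvR : v ∉ R) {y : V} (hy : y ∈ R) (hvy : ¬ G.Adj v y) :
    fp (dbl G v) ((hA v ∪ hB G v) ∩ lnk (dbl G v) (R.map ic0)) = fp G (lnk G R) := by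
  have haB : (ic0 y : V ×ₗ Bool) ∉ hB G v := by
    rintro ⟨x, _, hx⟩
    obtain ⟨rfl, h⟩ := ic_ne G v hx
    exact hvy h
  have haT : (ic0 y : V ×ₗ Bool) ∈ R.map ic0 := mem_map_of_mem _ hy
  have e1 : (hA v ∪ hB G v) ∩ lnk (dbl G v) (R.map ic0) = hA v ∩ lnk (dbl G v) (R.map ic0) := by
    ext p
    constructor
    · rintro ⟨_, h2⟩
      refine ⟨?_, h2⟩
      rcases (h2 _ haT).2 with h3 | h3
      · exact h3.1
      · exact absurd h3.2 haB
    · rintro ⟨h1, h2⟩
      exact ⟨Or.inl h1, h2⟩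
  have e2 : lnk G R \ {v} = lnk G R := by
    ext x
    refine ⟨fun h => h.1, fun h => ⟨h, ?_⟩⟩
    rintro rfl
    exact hvy (h y hy)
  rw [e1, l0 hvR, fp0, e2]

/-- the link of a face outside of the mirror, second copy -/
theorem far1 {v : V} {R : Finset V} (hvR : v ∉ R) {y : V} (hy : y ∈ R) (hvy : ¬ G.Adj v y) :
    fp (dbl G v) ((hA v ∪ hB G v) ∩ lnk (dbl G v) (R.map (ic1 G v))) = fp G (lnk G R) := by
  have hbA : (ic1 G v y : V ×ₗ Bool) ∉ hA v := by
    rintro ⟨x, _, hx⟩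
    obtain ⟨rfl, h⟩ := ic_ne G v hx.symm
    exact hvy h
  have hbT : (ic1 G v y : V ×ₗ Bool) ∈ R.map (ic1 G v) := mem_map_of_mem _ hy
  have e1 : (hA v ∪ hB G v) ∩ lnk (dbl G v) (R.map (ic1 G v)) =
      hB G v ∩ lnk (dbl G v) (R.map (ic1 G v)) := by
    ext p
    constructor
    · rintro ⟨_, h2⟩
      refine ⟨?_, h2⟩
      rcases (h2 _ hbT).2 with h3 | h3
      · exact absurd h3.2 hbA
      · exact h3.1
    · rintro ⟨h1, h2⟩
      exact ⟨Or.inr h1, h2⟩
  have e2 : lnk G R \ {v} = lnk G R := by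
    ext x
    refine ⟨fun h => h.1, fun h => ⟨h, ?_⟩⟩
    rintro rfl
    exact hvy (h y hy)
  rw [e1, l1 hvR, fp1, e2]

end

end Pool.Agent.N613.RP
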