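import Pool.Agent.N613.RP.Mark

/-!
# The reflection principle for linear inequalities between gamma numbers
-/

set_option autoImplicit false
set_option linter.unusedSectionVars false

namespace Pool.Agent.N613.RP

open Finset Polynomial Pool.Agent.R580.CD

variable {V₀ : Type} [DecidableEq V₀] {F : Type} [Field F] {d : ℕ} {a : ℕ → ℚ} {m : ℕ}
  {K : SimpleGraph V₀} {I : Finset V₀} {g : Finset V₀ → ℚ} {P : ∀ W : Type, SimpleGraph W → Prop}

/-- each vertex of `I` is adjacent to all other vertices of `I` with at most one exception -/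
def Amen {V : Type} (K : SimpleGraph V) (I : Finset V) : Prop :=
  ∀ u ∈ I, ∀ v ∈ I, ∀ w ∈ I, v ≠ u → w ≠ u → ¬ K.Adj u v → ¬ K.Adj u w → v = w

open Classical in
/-- the sum over the faces in `I` -/
noncomputable def EE {V : Type} (K : SimpleGraph V) (I : Finset V) (g : Finset V → ℚ) : ℚ :=
  ∑ R ∈ I.powerset, if K.IsClique (R : Set V) then (-1 / 2) ^ R.card * g R else 0

theorem EE_congr {g g' : Finset V₀ → ℚ} (h : ∀ R ⊆ I, K.IsClique (R : Set V₀) → g R = g' R) :
    EE K I g = EE K I g' := by
  unfold EE
  refine Finset.sum_congr rfl fun R hR => ?_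
  rw [mem_powerset] at hR
  by_cases hc : K.IsClique (R : Set V₀)
  · rw [if_pos hc, if_pos hc, h R hR hc]
  · rw [if_neg hc, if_neg hc]

theorem EE_lin (x y : ℚ) (g g' : Finset V₀ → ℚ) :
    EE K I (fun R => x * g R + y * g' R) = x * EE K I g + y * EE K I g' := by
  unfold EE
  rw [Finset.mul_sum, Finset.mul_sum, ← Finset.sum_add_distrib]
  refine Finset.sum_congr rfl fun R _ => ?_
  split_ifs <;> ring

theorem clique_ins {v : V₀} (hav : ∀ i ∈ I, K.Adj v i) {R : Finset V₀} (hR : R ⊆ I) :
    K.IsClique ((insert v R : Finset V₀) : Set V₀) ↔ K.IsClique (R : Set V₀) := by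
  rw [Finset.coe_insert, SimpleGraph.isClique_insert]
  exact ⟨fun h => h.1, fun h => ⟨h, fun b hb _ => hav b (hR hb)⟩⟩

theorem EE_single {v : V₀} (hv : v ∉ I) (hav : ∀ i ∈ I, K.Adj v i) (g : Finset V₀ → ℚ) :
    EE K (insert v I) g = EE K I g - 1 / 2 * EE K I (fun R => g (insert v R)) := by
  unfold EE
  rw [Finset.sum_powerset_insert hv, Finset.mul_sum, sub_eq_add_neg, ← Finset.sum_neg_distrib]
  congr 1
  refine Finset.sum_congr rfl fun R hR => ?_
  rw [mem_powerset] at hR
  have h5 := clique_ins hav hR
  rw [card_insert_of_notMem fun h => hv (hR h)]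
  by_cases h6 : K.IsClique (R : Set V₀)
  · rw [if_pos (h5.2 h6), if_pos h6]
    ring
  · rw [if_neg fun h => h6 (h5.1 h), if_neg h6]
    ring

theorem EE_pair {v w : V₀} (hv : v ∉ I) (hw : w ∉ I) (hvw : v ≠ w) (hn : ¬ K.Adj v w)
    (hav : ∀ i ∈ I, K.Adj v i) (haw : ∀ i ∈ I, K.Adj w i) (g : Finset V₀ → ℚ) :
    EE K (insert v (insert w I)) g = EE K I g - 1 / 2 * EE K I (fun R => g (insert v R)) -
      1 / 2 * EE K I (fun R => g (insert w R)) := by
  classical
  have h1 : v ∉ insert w I := by
    rw [mem_insert]
    rintro (h | h)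
    · exact hvw h
    · exact hv h
  have h2 := EE_single hw haw g
  rw [← sub_eq_zero]
  have h3 : EE K (insert v (insert w I)) g = EE K (insert w I) g -
      1 / 2 * EE K I (fun R => g (insert v R)) := by
    unfold EE
    rw [Finset.sum_powerset_insert h1, Finset.mul_sum, sub_eq_add_neg, ← Finset.sum_neg_distrib]
    congr 1
    rw [Finset.sum_powerset_insert hw]
    refine (congrArg₂ (· + ·) rfl (Finset.sum_eq_zero fun t _ => if_neg fun h => ?_)).trans ?_
    · exact hn (h (by simp) (by simp) hvw)
    beta_reduce
    rw [add_zero]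
    refine Finset.sum_congr rfl fun R hR => ?_
    rw [mem_powerset] at hR
    have h5 := clique_ins hav hR
    rw [card_insert_of_notMem fun h => hv (hR h)]
    by_cases h6 : K.IsClique (R : Set V₀)
    · rw [if_pos (h5.2 h6), if_pos h6]
      ring
    · rw [if_neg fun h => h6 (h5.1 h), if_neg h6]
      ring
  rw [h3, h2]
  ring

theorem stp_near {v w : V₀} {R : Finset V₀} (hv : v ∉ R) (hw : w ∉ R) (g : Finset V₀ → ℚ) :
    stp v w g R = 2 * g R - g (insert v R) := by
  unfold stp
  rw [if_neg (by tauto)]

theorem stp_v {v w : V₀} {R : Finset V₀} (hv : v ∉ R) (hw : w ∉ R) (g : Finset V₀ → ℚ) :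
    stp v w g (insert v R) = g (insert w R) := by
  unfold stp
  rw [if_pos (Or.inl (mem_insert_self _ _)), erase_insert hv, erase_eq_of_notMem hw]

theorem stp_w {v w : V₀} {R : Finset V₀} (hvw : v ≠ w) (hv : v ∉ R) (hw : w ∉ R)
    (g : Finset V₀ → ℚ) : stp v w g (insert w R) = g (insert w R) := by
  unfold stp
  have h1 : v ∉ insert w R := by
    rw [mem_insert]
    rintro (h | h)
    · exact hvw h
    · exact hv h
  rw [if_pos (Or.inr (mem_insert_self _ _)), erase_eq_of_notMem h1, erase_insert hw]

theorem stp_iter {v w : V₀} {R : Finset V₀} (hvw : v ≠ w) (hv : v ∉ R) (hw : w ∉ R)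
    (g : Finset V₀ → ℚ) (k : ℕ) :
    ((stp v w)^[k + 1] g) (insert v R) = g (insert w R) ∧
    ((stp v w)^[k + 1] g) (insert w R) = g (insert w R) ∧
    ((stp v w)^[k + 1] g) R = 2 ^ k * (2 * g R - g (insert v R) - g (insert w R)) +
      g (insert w R) := by
  induction k with
  | zero =>
    rw [zero_add, Function.iterate_one, stp_near hv hw, stp_v hv hw, stp_w hvw hv hw]
    refine ⟨rfl, rfl, ?_⟩
    ring
  | succ k ih =>
    obtain ⟨h1, h2, h3⟩ := ih
    rw [Function.iterate_succ', Function.comp_apply, stp_near hv hw, stp_v hv hw, stp_w hvw hv hw,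
      h1, h2, h3]
    refine ⟨rfl, rfl, ?_⟩
    rw [pow_succ]
    ring

/-- doubling again and again -/
theorem limit {x y : ℚ} (h : ∀ k : ℕ, 0 ≤ 2 ^ k * x + y) : 0 ≤ x := by
  by_contra hx
  rw [not_le] at hx
  obtain ⟨k, h2⟩ := pow_unbounded_of_one_lt (|y| / (-x)) (show (1 : ℚ) < 2 by norm_num)
  have h1 := h k
  rw [div_lt_iff₀ (by linarith)] at h2
  have h5 := le_abs_self y
  nlinarith

theorem Amen.mono {J : Finset V₀} (h : Amen K I) (hJ : J ⊆ I) : Amen K J :=
  fun u hu v hv w hw => h u (hJ hu) v (hJ hv) w (hJ hw)

/-- the reflection principle, for marked spheres -/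
theorem main_mk (hP : Closed F d P)
    (hα : ∀ (W : Type) [Fintype W] [LinearOrder W] (H : SimpleGraph W), Sph F d H → P W H →
      0 ≤ val a m d (fp H Set.univ)) : ∀ (n : ℕ) (I : Finset V₀), I.card = n → Amen K I →
    ∀ g : Finset V₀ → ℚ, Mk F P a m d K I g → 0 ≤ EE K I g := by
  intro n
  induction n using Nat.strong_induction_on with
  | _ n ih =>
    intro I hn hI g hg
    rcases I.eq_empty_or_nonempty with rfl | ⟨v, hv⟩
    · obtain ⟨W, i1, i2, H, x, h1, h2, h3, h4⟩ := hg
      have h5 := h4 ∅ (Finset.Subset.refl _) (by simp)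
      have h6 : LK H x ∅ = Set.univ := by
        ext y
        simp [LK]
      rw [h6, card_empty, Nat.sub_zero] at h5
      have h7 : EE K ∅ g = g ∅ := by
        unfold EE
        simp
      rw [h7, h5]
      exact hα W H h1.1 h1.2
    · by_cases hadj : ∀ i ∈ I.erase v, K.Adj v i
      · have h1 : I = insert v (I.erase v) := (insert_erase hv).symm
        have hlt : (I.erase v).card < n := by
          rw [← hn]
          exact card_erase_lt_of_mem hv
        have h2 := ih _ hlt (I.erase v) rfl (hI.mono (erase_subset _ _)) _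
          (Mk.single hP (notMem_erase _ _) hadj (h1 ▸ hg))
        have h3 : EE K (I.erase v) (fun R => 2 * g R - g (insert v R)) =
            2 * EE K (I.erase v) g - EE K (I.erase v) (fun R => g (insert v R)) := by
          have h4 := EE_lin (K := K) (I := I.erase v) 2 (-1) g (fun R => g (insert v R))
          rw [show (fun R => 2 * g R - g (insert v R)) =
            fun R => 2 * g R + (-1) * g (insert v R) by
              funext R
              ring, h4]
          ring
        rw [h1, EE_single (notMem_erase _ _) hadj]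
        rw [h3] at h2
        linarith
      · push Not at hadj
        obtain ⟨w, hw, hvw⟩ := hadj
        have hwv : w ≠ v := ne_of_mem_erase hw
        have hwI : w ∈ I := mem_of_mem_erase hw
        set J := (I.erase v).erase w with hJ
        have hJI : J ⊆ I := (erase_subset _ _).trans (erase_subset _ _)
        have hvJ : v ∉ J := fun h => (mem_erase.1 (mem_of_mem_erase h)).1 rfl
        have hwJ : w ∉ J := notMem_erase _ _
        have h1 : I = insert v (insert w J) := by
          rw [hJ, insert_erase hw, insert_erase hv]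
        have hav : ∀ i ∈ J, K.Adj v i := by
          intro i hi
          by_contra hcon
          have h2 : i ≠ v := by
            rintro rfl
            exact hvJ hi
          have h3 := hI v hv i (hJI hi) w hwI h2 hwv hcon hvw
          rw [h3] at hi
          exact hwJ hi
        have haw : ∀ i ∈ J, K.Adj w i := by
          intro i hi
          by_contra hcon
          have h2 : i ≠ w := by
            rintro rfl
            exact hwJ hi
          have h3 := hI w hwI i (hJI hi) v hv h2 hwv.symm hcon (fun h => hvw h.symm)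
          rw [h3] at hi
          exact hvJ hi
        have hlt : J.card < n := by
          rw [← hn]
          exact (card_erase_lt_of_mem hw).trans (card_erase_lt_of_mem hv)
        have hmk : ∀ k : ℕ, Mk F P a m d K I ((stp v w)^[k] g) := by
          intro k
          induction k with
          | zero => exact hg
          | succ k ih =>
            rw [Function.iterate_succ', Function.comp_apply]
            rw [h1] at ih ⊢
            exact Mk.pair hP hvJ hwJ hwv.symm hvw hav haw ih
        have hk : ∀ k : ℕ, 0 ≤ 2 ^ k * (2 * EE K J g - EE K J (fun R => g (insert v R)) -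
            EE K J (fun R => g (insert w R))) + EE K J (fun R => g (insert w R)) := by
          intro k
          have h2 := ih _ hlt J rfl (hI.mono hJI) _ ((hmk (k + 1)).mono hJI)
          have h3 : EE K J ((stp v w)^[k + 1] g) =
              EE K J (fun R => 1 * (2 ^ (k + 1) * g R + (-2 ^ k) * g (insert v R)) +
                (1 - 2 ^ k) * g (insert w R)) := by
            refine EE_congr fun R hR _ => ?_
            rw [(stp_iter hwv.symm (fun h => hvJ (hR h)) (fun h => hwJ (hR h)) g k).2.2, pow_succ]
            ring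
          rw [h3, EE_lin, EE_lin] at h2
          rw [pow_succ] at h2
          linarith
        have h4 := limit hk
        rw [h1, EE_pair hvJ hwJ hwv.symm hvw hav haw]
        linarith

/-- **The reflection principle.** -/
theorem main {V : Type} [Fintype V] [LinearOrder V] {G : SimpleGraph V} (hP : Closed F d P)
    (hα : ∀ (W : Type) [Fintype W] [LinearOrder W] (H : SimpleGraph W), Sph F d H → P W H →
      0 ≤ val a m d (fp H Set.univ)) (hS : Sph F d G) (hG : P V G) (I : Finset V) (hI : Amen G I) :
    0 ≤ EE G I (fun R => val a m (d - R.card) (fp G (lnk G R))) := by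
  refine main_mk hP hα _ I rfl hI _ ⟨V, inferInstance, inferInstance, G, id, ⟨hS, hG⟩,
    Function.injective_id.injOn, fun i _ j _ => Iff.rfl, fun R _ _ => ?_⟩
  rfl

end Pool.Agent.N613.RP
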