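import Pool.Agent.N613.RP.Link

/-!
# Marked flag homology spheres and their doubles
-/

set_option autoImplicit false
set_option linter.unusedSectionVars false

namespace Pool.Agent.N613.RP

open Finset Polynomial Pool.Agent.R580.CD

variable {V₀ : Type} {F : Type} [Field F] {d : ℕ} {a : ℕ → ℚ} {m : ℕ}
  {P : ∀ W : Type, SimpleGraph W → Prop}

/-- The class `P` of graphs is closed under doubling of the flag homology `(d - 1)`-spheres in it. -/
def Closed (F : Type) [Field F] (d : ℕ) (P : ∀ W : Type, SimpleGraph W → Prop) : Prop :=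
  ∀ (W : Type) [Fintype W] [LinearOrder W] (H : SimpleGraph W) (v : W), Sph F d H → P W H →
    P (DV H v) (DG H v)

/-- the value of the functional -/
noncomputable def val (a : ℕ → ℚ) (m d : ℕ) (p : ℤ[X]) : ℚ :=
  ∑ i ∈ Finset.range m, a i * (gv d p i : ℚ)

theorem val_lin {e : ℕ} {p q : ℤ[X]} {γ δ : ℕ → ℤ} (h1 : IsGam (e + 1) p γ) (h2 : IsGam e q δ) :
    val a m (e + 1) (2 * p - (1 + 2 * X) * q) = 2 * val a m (e + 1) p - val a m e q := by
  unfold val
  rw [gv_eq (isGam_lin h1 h2), gv_eq h1, gv_eq h2, Finset.mul_sum, ← Finset.sum_sub_distrib]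
  refine Finset.sum_congr rfl fun i _ => ?_
  push_cast
  ring

/-- the common neighbours of the vertices `x i`, `i ∈ R` -/
def LK {W : Type} (H : SimpleGraph W) (x : V₀ → W) (R : Finset V₀) : Set W :=
  {y | ∀ i ∈ R, H.Adj y (x i)}

theorem lnk_image {W : Type} [Fintype W] [LinearOrder W] {H : SimpleGraph W} {x : V₀ → W}
    {R : Finset V₀} {T : Finset W} (h : ∀ w, w ∈ T ↔ ∃ i ∈ R, x i = w) : lnk H T = LK H x R := by
  ext y
  simp only [lnk, LK, Set.mem_ofPred_eq, h]
  constructor
  · intro h1 i hi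
    exact h1 _ ⟨i, hi, rfl⟩
  · rintro h1 _ ⟨i, hi, rfl⟩
    exact h1 i hi

/-- The graph `K` on `I` is an induced subgraph of the graph of a flag homology sphere, in which the
faces `R ⊆ I` have links on which the functional has the value `g R`. -/
def Mk (F : Type) [Field F] (P : ∀ W : Type, SimpleGraph W → Prop) (a : ℕ → ℚ) (m d : ℕ)
    (K : SimpleGraph V₀) (I : Finset V₀) (g : Finset V₀ → ℚ) : Prop :=
  ∃ (W : Type) (_ : Fintype W) (_ : LinearOrder W) (H : SimpleGraph W) (x : V₀ → W),
    (Sph F d H ∧ P W H) ∧ Set.InjOn x (I : Set V₀) ∧ (∀ i ∈ I, ∀ j ∈ I, K.Adj i j ↔ H.Adj (x i) (x j)) ∧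
    ∀ R ⊆ I, K.IsClique (R : Set V₀) → g R = val a m (d - R.card) (fp H (LK H x R))

variable {K : SimpleGraph V₀} {I J : Finset V₀} {g g' : Finset V₀ → ℚ}

theorem Mk.mono (h : Mk F P a m d K I g) (hJ : J ⊆ I) : Mk F P a m d K J g := by
  obtain ⟨W, i1, i2, H, x, h1, h2, h3, h4⟩ := h
  exact ⟨W, i1, i2, H, x, h1, h2.mono (by exact_mod_cast hJ),
    fun i hi j hj => h3 i (hJ hi) j (hJ hj), fun R hR => h4 R (hR.trans hJ)⟩

theorem Mk.congr (h : Mk F P a m d K I g) (hg : ∀ R ⊆ I, K.IsClique (R : Set V₀) → g R = g' R) :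
    Mk F P a m d K I g' := by
  obtain ⟨W, i1, i2, H, x, h1, h2, h3, h4⟩ := h
  exact ⟨W, i1, i2, H, x, h1, h2, h3, fun R hR hc => by rw [← hg R hR hc, h4 R hR hc]⟩

/-- The image of a face. -/
theorem exists_face {W : Type} [Fintype W] [LinearOrder W] {H : SimpleGraph W} {x : V₀ → W}
    (hS : Sph F d H) (h2 : Set.InjOn x (I : Set V₀))
    (h3 : ∀ i ∈ I, ∀ j ∈ I, K.Adj i j ↔ H.Adj (x i) (x j)) {R : Finset V₀} (hR : R ⊆ I)
    (hc : K.IsClique (R : Set V₀)) : ∃ T : Finset W, (∀ w, w ∈ T ↔ ∃ i ∈ R, x i = w) ∧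
      H.IsClique (T : Set W) ∧ R.card ≤ d ∧
      IsGam (d - R.card) (fp H (LK H x R)) (gv (d - R.card) (fp H (LK H x R))) := by
  classical
  have h0 : ∀ w, w ∈ R.image x ↔ ∃ i ∈ R, x i = w := fun w => mem_image
  have hcard : (R.image x).card = R.card :=
    card_image_of_injOn (h2.mono (by exact_mod_cast hR))
  have hcl : H.IsClique ((R.image x : Finset W) : Set W) := by
    intro p hp q hq hpq
    rw [Finset.mem_coe, mem_image] at hp hq
    obtain ⟨i, hi, rfl⟩ := hp
    obtain ⟨j, hj, rfl⟩ := hq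
    exact (h3 i (hR hi) j (hR hj)).1 (hc hi hj fun h => hpq (by rw [h]))
  refine ⟨R.image x, h0, hcl, ?_, ?_⟩
  · rw [← hcard]
    exact hS.card hcl
  · have := link_gam hS hcl
    rw [lnk_image h0, hcard] at this
    exact this

theorem LK_DG {W : Type} [Fintype W] [LinearOrder W] {H : SimpleGraph W} {u : W}
    {x' : V₀ → DV H u} {R : Finset V₀} {T : Finset (W ×ₗ Bool)}
    (h : ∀ p, p ∈ T ↔ ∃ i ∈ R, (x' i : W ×ₗ Bool) = p) :
    Subtype.val '' LK (DG H u) x' R = (hA u ∪ hB H u) ∩ lnk (dbl H u) T := by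
  ext p
  constructor
  · rintro ⟨q, hq, rfl⟩
    refine ⟨q.2, fun r hr => ?_⟩
    obtain ⟨i, hi, rfl⟩ := (h r).1 hr
    exact hq i hi
  · rintro ⟨hp, hp2⟩
    exact ⟨⟨p, hp⟩, fun i hi => hp2 _ ((h _).2 ⟨i, hi, rfl⟩), rfl⟩

/-- doubling at a vertex adjacent to all others -/
theorem Mk.single [DecidableEq V₀] (hP : Closed F d P) {v : V₀} (hv : v ∉ I)
    (hadj : ∀ i ∈ I, K.Adj v i) (hI : Mk F P a m d K (insert v I) g) :
    Mk F P a m d K I (fun R => 2 * g R - g (insert v R)) := by
  classical
  obtain ⟨W, i1, i2, H, x, ⟨h1, hPH⟩, h2, h3, h4⟩ := hI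
  set u := x v with hu
  have hvI : v ∈ insert v I := mem_insert_self _ _
  have hadj' : ∀ i ∈ I, H.Adj u (x i) := fun i hi =>
    (h3 v hvI i (mem_insert_of_mem hi)).1 (hadj i hi)
  have hne : ∀ i ∈ I, x i ≠ u := fun i hi h => by
    have := hadj' i hi
    rw [h] at this
    exact H.loopless.irrefl _ this
  have hS : Sph F d (DG H u) := (dbl_sphOn h1 u).induce
  have hd : 0 < d := by
    have := h1.card (T := {u}) (by simp)
    rw [card_singleton] at this
    omega
  obtain ⟨w0, _⟩ := hS.exists_mem (T := ∅) (by simp) (by simpa using hd)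
  set x' : V₀ → DV H u := fun i => if hi : x i ≠ u then ⟨ic0 (x i), Or.inl ⟨x i, hi, rfl⟩⟩ else w0
    with hx'
  have hx'i : ∀ i ∈ I, (x' i : W ×ₗ Bool) = ic0 (x i) := by
    intro i hi
    rw [hx']
    beta_reduce
    rw [dif_pos (hne i hi)]
  refine ⟨DV H u, inferInstance, inferInstance, DG H u, x', ⟨hS, hP W H u h1 hPH⟩, ?_, ?_, ?_⟩
  · intro i hi j hj hij
    have h5 := congrArg Subtype.val hij
    rw [hx'i i hi, hx'i j hj] at h5
    exact h2 (mem_insert_of_mem hi) (mem_insert_of_mem hj) (ic0.injective h5)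
  · intro i hi j hj
    rw [h3 i (mem_insert_of_mem hi) j (mem_insert_of_mem hj),
      dbl_adj0 H u (x i) (hne i hi) (x j) (hne j hj), ← hx'i i hi, ← hx'i j hj]
    exact Iff.rfl
  · intro R hR hc
    have hvR : v ∉ R := fun h => hv (hR h)
    have hc' : K.IsClique ((insert v R : Finset V₀) : Set V₀) := by
      rw [Finset.coe_insert, SimpleGraph.isClique_insert]
      exact ⟨hc, fun b hb _ => hadj b (hR hb)⟩
    have hRI : R ⊆ insert v I := hR.trans (subset_insert _ _)
    have hRI' : insert v R ⊆ insert v I := insert_subset_insert _ hR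
    obtain ⟨T, hT, hTc, _, g1⟩ := exists_face h1 h2 h3 hRI hc
    obtain ⟨T', hT', hTc', hle, g2⟩ := exists_face h1 h2 h3 hRI' hc'
    rw [card_insert_of_notMem hvR] at hle g2
    have hTT : T' = insert u T := by
      ext w
      rw [hT', mem_insert, hT]
      constructor
      · rintro ⟨i, hi, rfl⟩
        rcases mem_insert.1 hi with rfl | hi
        · exact Or.inl rfl
        · exact Or.inr ⟨i, hi, rfl⟩
      · rintro (rfl | ⟨i, hi, rfl⟩)
        · exact ⟨v, mem_insert_self _ _, rfl⟩
        · exact ⟨i, mem_insert_of_mem hi, rfl⟩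
    have e1 : Subtype.val '' LK (DG H u) x' R = (hA u ∪ hB H u) ∩ lnk (dbl H u) (T.map ic0) := by
      refine LK_DG fun p => ?_
      rw [mem_map]
      constructor
      · rintro ⟨w, hw, rfl⟩
        obtain ⟨i, hi, rfl⟩ := (hT w).1 hw
        exact ⟨i, hi, hx'i i (hR hi)⟩
      · rintro ⟨i, hi, rfl⟩
        exact ⟨x i, (hT _).2 ⟨i, hi, rfl⟩, (hx'i i (hR hi)).symm⟩
    obtain ⟨e, he⟩ : ∃ e, d - R.card = e + 1 := ⟨d - R.card - 1, by omega⟩
    have he' : d - (R.card + 1) = e := by omega
    rw [he] at g1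
    rw [he'] at g2
    beta_reduce
    rw [h4 R hRI hc, h4 _ hRI' hc', card_insert_of_notMem hvR, he, he', fp_DG, e1, near (by
        intro y hy
        obtain ⟨i, hi, rfl⟩ := (hT y).1 hy
        exact hadj' i (hR hi)), ← hTT, lnk_image hT, lnk_image hT', val_lin g1 g2]

/-- the new table -/
def stp [DecidableEq V₀] (v w : V₀) (g : Finset V₀ → ℚ) : Finset V₀ → ℚ := fun R =>
  if v ∈ R ∨ w ∈ R then g (insert w ((R.erase v).erase w)) else 2 * g R - g (insert v R)

/-- doubling at one of two vertices which are adjacent to all others but not to each other -/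
theorem Mk.pair [DecidableEq V₀] (hP : Closed F d P) {v w : V₀} (hv : v ∉ I) (hw : w ∉ I) (hvw : v ≠ w)
    (hn : ¬ K.Adj v w) (hav : ∀ i ∈ I, K.Adj v i) (haw : ∀ i ∈ I, K.Adj w i)
    (hI : Mk F P a m d K (insert v (insert w I)) g) :
    Mk F P a m d K (insert v (insert w I)) (stp v w g) := by
  classical
  obtain ⟨W, i1, i2, H, x, ⟨h1, hPH⟩, h2, h3, h4⟩ := hI
  set I' := insert v (insert w I) with hI'
  set u := x v with hu
  have hvI : v ∈ I' := mem_insert_self _ _
  have hwI : w ∈ I' := mem_insert_of_mem (mem_insert_self _ _)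
  have hII : ∀ i ∈ I, i ∈ I' := fun i hi => mem_insert_of_mem (mem_insert_of_mem hi)
  have hadj' : ∀ i ∈ I, H.Adj u (x i) := fun i hi => (h3 v hvI i (hII i hi)).1 (hav i hi)
  have hadw' : ∀ i ∈ I, H.Adj (x w) (x i) := fun i hi => (h3 w hwI i (hII i hi)).1 (haw i hi)
  have hnuw : ¬ H.Adj u (x w) := fun h => hn ((h3 v hvI w hwI).2 h)
  have hne : ∀ i ∈ insert w I, x i ≠ u := fun i hi h => by
    have h5 : i = v := h2 (mem_insert_of_mem hi) hvI h
    rw [h5, mem_insert] at hi
    rcases hi with h6 | h6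
    · exact hvw h6
    · exact hv h6
  have hxw : x w ≠ u := hne w (mem_insert_self _ _)
  have hS : Sph F d (DG H u) := (dbl_sphOn h1 u).induce
  set x' : V₀ → DV H u := fun i =>
    if i = v then ⟨ic1 H u (x w), Or.inr ⟨x w, hxw, rfl⟩⟩ else
    if hi : x i ≠ u then ⟨ic0 (x i), Or.inl ⟨x i, hi, rfl⟩⟩ else
      ⟨ic1 H u (x w), Or.inr ⟨x w, hxw, rfl⟩⟩ with hx'
  have hx'v : (x' v : W ×ₗ Bool) = ic1 H u (x w) := by
    rw [hx']
    beta_reduce
    rw [if_pos rfl]
  have hx'i : ∀ i ∈ insert w I, (x' i : W ×ₗ Bool) = ic0 (x i) := by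
    intro i hi
    have h5 : i ≠ v := by
      rintro rfl
      rcases mem_insert.1 hi with h6 | h6
      · exact hvw h6
      · exact hv h6
    rw [hx']
    beta_reduce
    rw [if_neg h5, dif_pos (hne i hi)]
  have hvne : ∀ i ∈ insert w I, (x' v : W ×ₗ Bool) ≠ x' i := by
    intro i hi h
    rw [hx'v, hx'i i hi] at h
    exact hnuw (ic_ne H u h).2
  have hxI : ∀ i ∈ I, (x' i : W ×ₗ Bool) = ic1 H u (x i) := by
    intro i hi
    rw [hx'i i (mem_insert_of_mem hi), ic_eq H u (hadj' i hi)]
  have hAvi : ∀ i ∈ insert w I, K.Adj v i ↔ (DG H u).Adj (x' v) (x' i) := by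
    intro i hi
    rcases mem_insert.1 hi with rfl | hi
    · constructor
      · intro h
        exact absurd h hn
      · intro h
        have h5 : (dbl H u).Adj (x' v) (x' i) := h
        rw [hx'v, hx'i i (mem_insert_self _ _)] at h5
        exact absurd h5.1 (H.loopless.irrefl _)
    · refine ⟨fun _ => ?_, fun _ => hav i hi⟩
      have h5 : (dbl H u).Adj (ic1 H u (x w)) (ic1 H u (x i)) :=
        (dbl_adj1 H u (x w) hxw (x i) (hne i (mem_insert_of_mem hi))).1 (hadw' i hi)
      rw [← hx'v, ← hxI i hi] at h5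
      exact h5
  refine ⟨DV H u, inferInstance, inferInstance, DG H u, x', ⟨hS, hP W H u h1 hPH⟩, ?_, ?_, ?_⟩
  · intro i hi j hj hij
    have h5 := congrArg Subtype.val hij
    rcases mem_insert.1 (Finset.mem_coe.1 hi) with hi' | hi' <;>
      rcases mem_insert.1 (Finset.mem_coe.1 hj) with hj' | hj'
    · rw [hi', hj']
    · rw [hi'] at h5
      exact absurd h5 (hvne j hj')
    · rw [hj'] at h5
      exact absurd h5.symm (hvne i hi')
    · rw [hx'i i hi', hx'i j hj'] at h5
      exact h2 hi hj (ic0.injective h5)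
  · intro i hi j hj
    rcases mem_insert.1 hi with hi' | hi' <;> rcases mem_insert.1 hj with hj' | hj'
    · rw [hi', hj']
      exact ⟨fun h => absurd h (K.loopless.irrefl _), fun h => absurd h ((DG H u).loopless.irrefl _)⟩
    · rw [hi']
      exact hAvi j hj'
    · rw [hj', K.adj_comm, (DG H u).adj_comm]
      exact hAvi i hi'
    · rw [h3 i hi j hj, dbl_adj0 H u (x i) (hne i hi') (x j) (hne j hj'), ← hx'i i hi',
        ← hx'i j hj']
      exact Iff.rfl
  · intro R hR hc
    by_cases hvR : v ∈ R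
    · -- second copy
      have hwR : w ∉ R := fun h => hn (hc hvR h hvw)
      set R₀ := R.erase v with hR₀
      have hRv : insert v R₀ = R := insert_erase hvR
      have hR₀I : R₀ ⊆ I := by
        intro i hi
        rw [hR₀, mem_erase] at hi
        rcases mem_insert.1 (hR hi.2) with h | h
        · exact absurd h hi.1
        · rcases mem_insert.1 h with rfl | h
          · exact absurd hi.2 hwR
          · exact h
      have hwR₀ : w ∉ R₀ := fun h => hw (hR₀I h)
      have hvR₀ : v ∉ R₀ := fun h => hv (hR₀I h)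
      have hc' : K.IsClique ((insert w R₀ : Finset V₀) : Set V₀) := by
        rw [Finset.coe_insert, SimpleGraph.isClique_insert]
        exact ⟨hc.subset (by rw [← hRv]; exact_mod_cast subset_insert _ _),
          fun b hb _ => haw b (hR₀I hb)⟩
      have hRI' : insert w R₀ ⊆ I' := by
        refine insert_subset hwI (hR₀I.trans fun i hi => hII i hi)
      obtain ⟨T, hT, hTc, _, g1⟩ := exists_face h1 h2 h3 hRI' hc'
      have huT : u ∉ T := by
        intro h
        obtain ⟨i, hi, hiu⟩ := (hT u).1 h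
        exact hne i (insert_subset_insert w hR₀I hi) hiu
      have e1 : Subtype.val '' LK (DG H u) x' R =
          (hA u ∪ hB H u) ∩ lnk (dbl H u) (T.map (ic1 H u)) := by
        refine LK_DG fun p => ?_
        rw [mem_map]
        constructor
        · rintro ⟨z, hz, rfl⟩
          obtain ⟨i, hi, rfl⟩ := (hT z).1 hz
          rcases mem_insert.1 hi with rfl | hi
          · exact ⟨v, hvR, hx'v⟩
          · exact ⟨i, mem_of_mem_erase hi, hxI i (hR₀I hi)⟩
        · rintro ⟨i, hi, rfl⟩
          by_cases hiv : i = v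
          · rw [hiv]
            exact ⟨x w, (hT _).2 ⟨w, mem_insert_self _ _, rfl⟩, hx'v.symm⟩
          · have hi' : i ∈ R₀ := mem_erase.2 ⟨hiv, hi⟩
            exact ⟨x i, (hT _).2 ⟨i, mem_insert_of_mem hi', rfl⟩, (hxI i (hR₀I hi')).symm⟩
      have hcard : R.card = (insert w R₀).card := by
        rw [card_insert_of_notMem hwR₀, ← hRv, card_insert_of_notMem hvR₀]
      rw [fp_DG, e1, far1 huT ((hT _).2 ⟨w, mem_insert_self _ _, rfl⟩) hnuw, lnk_image hT]
      unfold stp
      rw [if_pos (Or.inl hvR), erase_eq_of_notMem hwR₀, h4 _ hRI' hc', hcard]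
    · by_cases hwR : w ∈ R
      · -- first copy
        have hRI : R ⊆ insert w I := by
          intro i hi
          rcases mem_insert.1 (hR hi) with h | h
          · rw [h] at hi
            exact absurd hi hvR
          · exact h
        obtain ⟨T, hT, hTc, _, g1⟩ := exists_face h1 h2 h3 hR hc
        have huT : u ∉ T := by
          intro h
          obtain ⟨i, hi, hiu⟩ := (hT u).1 h
          exact hne i (hRI hi) hiu
        have e1 : Subtype.val '' LK (DG H u) x' R =
            (hA u ∪ hB H u) ∩ lnk (dbl H u) (T.map ic0) := by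
          refine LK_DG fun p => ?_
          rw [mem_map]
          constructor
          · rintro ⟨z, hz, rfl⟩
            obtain ⟨i, hi, rfl⟩ := (hT z).1 hz
            exact ⟨i, hi, hx'i i (hRI hi)⟩
          · rintro ⟨i, hi, rfl⟩
            exact ⟨x i, (hT _).2 ⟨i, hi, rfl⟩, (hx'i i (hRI hi)).symm⟩
        rw [fp_DG, e1, far0 huT ((hT _).2 ⟨w, hwR, rfl⟩) hnuw, lnk_image hT]
        unfold stp
        rw [if_pos (Or.inr hwR), erase_eq_of_notMem hvR, insert_erase hwR, h4 _ hR hc]
      · -- in the mirror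
        have hRI : R ⊆ I := by
          intro i hi
          rcases mem_insert.1 (hR hi) with h | h
          · rw [h] at hi
            exact absurd hi hvR
          · rcases mem_insert.1 h with h | h
            · rw [h] at hi
              exact absurd hi hwR
            · exact h
        have hI2 : insert v I ⊆ I' := insert_subset_insert _ (subset_insert _ _)
        have h5 : Mk F P a m d K (insert v I) g :=
          Mk.mono ⟨W, i1, i2, H, x, ⟨h1, hPH⟩, h2, h3, h4⟩ hI2
        have hc' : K.IsClique ((insert v R : Finset V₀) : Set V₀) := by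
          rw [Finset.coe_insert, SimpleGraph.isClique_insert]
          exact ⟨hc, fun b hb _ => hav b (hRI hb)⟩
        have hRI' : insert v R ⊆ I' := insert_subset hvI hR
        obtain ⟨T, hT, hTc, _, g1⟩ := exists_face h1 h2 h3 hR hc
        obtain ⟨T', hT', hTc', hle, g2⟩ := exists_face h1 h2 h3 hRI' hc'
        rw [card_insert_of_notMem hvR] at hle g2
        have hTT : T' = insert u T := by
          ext z
          rw [hT', mem_insert, hT]
          constructor
          · rintro ⟨i, hi, rfl⟩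
            rcases mem_insert.1 hi with rfl | hi
            · exact Or.inl rfl
            · exact Or.inr ⟨i, hi, rfl⟩
          · rintro (rfl | ⟨i, hi, rfl⟩)
            · exact ⟨v, mem_insert_self _ _, rfl⟩
            · exact ⟨i, mem_insert_of_mem hi, rfl⟩
        have e1 : Subtype.val '' LK (DG H u) x' R =
            (hA u ∪ hB H u) ∩ lnk (dbl H u) (T.map ic0) := by
          refine LK_DG fun p => ?_
          rw [mem_map]
          constructor
          · rintro ⟨z, hz, rfl⟩
            obtain ⟨i, hi, rfl⟩ := (hT z).1 hz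
            exact ⟨i, hi, hx'i i (mem_insert_of_mem (hRI hi))⟩
          · rintro ⟨i, hi, rfl⟩
            exact ⟨x i, (hT _).2 ⟨i, hi, rfl⟩, (hx'i i (mem_insert_of_mem (hRI hi))).symm⟩
        obtain ⟨e, he⟩ : ∃ e, d - R.card = e + 1 := ⟨d - R.card - 1, by omega⟩
        have he' : d - (R.card + 1) = e := by omega
        rw [he] at g1
        rw [he'] at g2
        unfold stp
        rw [if_neg (by tauto), h4 R hR hc, h4 _ hRI' hc', card_insert_of_notMem hvR, he, he',
          fp_DG, e1, near (by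
            intro y hy
            obtain ⟨i, hi, rfl⟩ := (hT y).1 hy
            exact hadj' i (hRI hi)), ← hTT, lnk_image hT, lnk_image hT', val_lin g1 g2]

end Pool.Agent.N613.RP
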