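import Pool.Agent.N613.RP.Asy
import Pool.Agent.TH417.Gal.F

/-!
# Flag homology spheres are flag normal pseudomanifolds; a bound for `γ₂`
-/

set_option autoImplicit false
set_option linter.unusedSectionVars false

namespace Pool.Agent.N613.RP

open Finset Polynomial Pool.Agent.R580.CD
open Pool.Agent.W497.FS (NP SConn cl lk FP mem_cl)
open Pool.Agent.W907.SG (bd)

variable {V : Type} [Fintype V] [LinearOrder V] {F : Type} [Field F] {d : ℕ} {G : SimpleGraph V}

open Classical in
/-- the vertices of the link -/
noncomputable def LF (G : SimpleGraph V) (T : Finset V) : Finset V :=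
  Finset.univ.filter (fun x => x ∈ lnk G T)

theorem mem_LF {T : Finset V} {x : V} : x ∈ LF G T ↔ x ∈ lnk G T := by
  classical
  unfold LF
  rw [mem_filter]
  exact ⟨fun h => h.2, fun h => ⟨mem_univ _, h⟩⟩

theorem coe_LF (T : Finset V) : (LF G T : Set V) = lnk G T := by
  ext x
  exact mem_LF

theorem lk_LF (T : Finset V) (v : V) : lk G (LF G T) v = LF G (insert v T) := by
  ext x
  rw [Pool.Agent.W497.FS.mem_lk, mem_LF, mem_LF, lnk_insert]
  exact Iff.rfl

theorem fp_eq_FP (U : Finset V) : fp G (U : Set V) = FP G U := by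
  classical
  unfold fp FP
  rw [← Finset.sum_filter]
  refine Finset.sum_congr ?_ fun _ _ => rfl
  ext T
  rw [mem_filter, mem_cl]
  constructor
  · rintro ⟨_, h1, h2⟩
    exact ⟨by exact_mod_cast h2, fun x hx y hy hxy => h1 hx hy hxy⟩
  · rintro ⟨h1, h2⟩
    exact ⟨mem_univ _, fun x hx y hy hxy => h2 x hx y hy hxy, by exact_mod_cast h1⟩

/-- links of faces of codimension at least two are connected -/
theorem connected (hS : Sph F d G) {T : Finset V} (hT : G.IsClique (T : Set V))
    (hd : T.card + 2 ≤ d) : SConn G (LF G T) := by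
  classical
  intro A hA hne hAU
  by_contra hcon
  push Not at hcon
  obtain ⟨x, hx⟩ := hne
  obtain ⟨y, hy, hyA⟩ : ∃ y ∈ LF G T, y ∉ A := by
    by_contra h
    push Not at h
    exact hAU (Finset.Subset.antisymm hA h)
  have h1 := hS T hT 1
  rw [if_neg (by omega), betti_eq_zero] at h1
  have h2 := h1 (diff_mem (F := F) (G := G) (mem_LF.1 (hA hx)) (mem_LF.1 hy))
  obtain ⟨e, he, he2⟩ := h2
  have he : e ∈ CC F G (lnk G T) 2 := he
  have h3 := sum_bd (F := F) (e := e) A (fun a ha b hb => he {a, b} fun h => by
    obtain ⟨h4, h5, h6⟩ := h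
    have hab : a ≠ b := by
      rintro rfl
      exact hb ha
    have hbL : b ∈ LF G T := mem_LF.2 (h5 (by simp))
    exact hcon a ha b hbL hb (h4 (by simp) (by simp) hab))
  have he3 : bd F e = Pi.single {x} 1 - Pi.single {y} 1 := he2
  rw [he3] at h3
  have h4 : ∑ z ∈ A, (Pi.single ({x} : Finset V) (1 : F) - Pi.single {y} 1 : Finset V → F) {z} =
      1 := by
    rw [Finset.sum_eq_single x]
    · rw [Pi.sub_apply, Pi.single_eq_same, Pi.single_apply, if_neg, sub_zero]
      intro h
      rw [Finset.singleton_inj] at h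
      rw [h] at hx
      exact hyA hx
    · intro z hz hzx
      rw [Pi.sub_apply, Pi.single_apply, Pi.single_apply, if_neg, if_neg, sub_zero]
      · intro h
        rw [Finset.singleton_inj] at h
        rw [h] at hz
        exact hyA hz
      · intro h
        rw [Finset.singleton_inj] at h
        exact hzx h
    · intro h
      exact absurd hx h
  rw [h4] at h3
  exact one_ne_zero h3

theorem np_link (hS : Sph F d G) : ∀ (k : ℕ) (T : Finset V), G.IsClique (T : Set V) →
    k + T.card = d → NP G k (LF G T) := by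
  intro k
  induction k using Nat.strong_induction_on with
  | _ k ih =>
    intro T hT hk
    have hempty : ∀ x ∈ LF G T, 0 < k := by
      intro x hx
      have h1 := hS.card (clique_insert hT (mem_LF.1 hx))
      rw [card_insert_of_notMem (notMem_of_lnk (mem_LF.1 hx))] at h1
      omega
    rcases k with _ | _ | k
    · show LF G T = ∅
      rw [Finset.eq_empty_iff_forall_notMem]
      intro x hx
      exact absurd (hempty x hx) (lt_irrefl _)
    · have hnadj : ∀ x ∈ LF G T, ∀ y ∈ LF G T, ¬ G.Adj x y := by
        intro x hx y hy hxy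
        have h1 := clique_insert hT (mem_LF.1 hx)
        have hxT := notMem_of_lnk (mem_LF.1 hx)
        have h2 : y ∈ lnk G (insert x T) := by
          rw [lnk_insert]
          exact ⟨mem_LF.1 hy, hxy⟩
        have h3 := hS.card (clique_insert h1 h2)
        rw [card_insert_of_notMem (notMem_of_lnk h2), card_insert_of_notMem hxT] at h3
        omega
      refine ⟨?_, hnadj⟩
      have h1 := link_gam hS hT
      have hd1 : d - T.card = 1 := by omega
      rw [hd1] at h1
      have h0 := gam0 h1 (fp_eval_zero G _)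
      have h2 : fp G (lnk G T) = 1 + 2 * X := by
        rw [h1.1]
        unfold Phi
        rw [show 1 / 2 + 1 = 1 by norm_num, Finset.sum_range_one, h0]
        simp
      rw [← coe_LF, fp_eq_FP] at h2
      have h3 := Pool.Agent.TH417.Gal.FP_coeff_one (H := G) (LF G T)
      rw [h2] at h3
      have h4 : ((1 + 2 * X : ℤ[X])).coeff 1 = 2 := by
        simp [coeff_one, coeff_ofNat_mul]
      rw [h4] at h3
      exact_mod_cast h3.symm
    · refine ⟨?_, connected hS hT (by omega), ?_⟩
      · obtain ⟨x, hx⟩ := hS.exists_mem hT (by omega)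
        exact ⟨x, mem_LF.2 hx⟩
      · intro v hv
        rw [lk_LF]
        refine ih (k + 1) (by omega) _ (clique_insert hT (mem_LF.1 hv)) ?_
        rw [card_insert_of_notMem (notMem_of_lnk (mem_LF.1 hv))]
        omega

theorem LF_empty : LF G ∅ = Finset.univ := by
  ext x
  rw [mem_LF, lnk_empty]
  simp

theorem np (hS : Sph F d G) : NP G d Finset.univ := by
  have := np_link hS d ∅ (by simp) (by simp)
  rwa [LF_empty] at this

/-- the bound for `γ₂` -/
theorem gamma_two_bound (hS : Sph F d G) (hd : 4 ≤ d) :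
    0 ≤ 4 * gv d (fp G Set.univ) 2 + 3 * ((d : ℤ) - 2) * gv d (fp G Set.univ) 1 := by
  have h1 := gam_spec hS
  rw [gam_eq_gv] at h1
  set γ := gv d (fp G Set.univ) with hγ
  have h0 := gam0 h1 (fp_eval_zero G Set.univ)
  have hfp : fp G Set.univ = FP G Finset.univ := by
    rw [← fp_eq_FP, Finset.coe_univ]
  have h2 := Pool.Agent.TH417.Gal.expansion_coeff hd γ (p := FP G Finset.univ) (by
    rw [← hfp, h1.1]
    unfold Phi Pool.Agent.W497.FS.w Pool.Agent.W497.FS.y
    refine Finset.sum_congr rfl fun i _ => ?_
    congr 2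
    ring)
  obtain ⟨_, h3, h4⟩ := h2
  rw [Pool.Agent.TH417.Gal.FP_coeff_one, h0] at h3
  have h5 := Pool.Agent.TH417.Gal.FP_coeff_two (H := G) Finset.univ
  rw [h4, h0] at h5
  have h6 := Pool.Agent.TH417.Gal.edges _ d G Finset.univ rfl (np hS)
  have h7 : γ 1 = (Finset.univ : Finset V).card - 2 * d := by linarith
  rw [h7] at h5 ⊢
  nlinarith

end Pool.Agent.N613.RP
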